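import Mathlib
import Pool.Agent.Run7.h801.Main

/-!
# Corners of polygonal tiles in tilings of the sphere by small congruent sets

Let `T₁, …, T_N` be an `ε`-tiling of the unit sphere by congruent closed sets whose boundaries
lie on finitely many great circles.  If `C` is the set of corners of a tile (the points where
its interior angle `ω` is not `0`, `π` or `2π`) and `k = |C|`, then for every `J ⊆ C`

  `N * ∏_{x ∈ C \ J} ω_x / 2π ≤ 4 * (k * N * ε²) ^ |J|`.

For `|J| = 1` the number `N` cancels and one gets `∏_{x ≠ c} ω_x / 2π ≤ 4 k ε²` for every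
corner `c`.  The definitions are in `Pool/Agent/Run7/h801/Defs.lean`.
-/

namespace Pool.Agent.Results.MP_e5885b_co.CornerProduct

open Run7.h801

theorem result {ε : ℝ} {N : ℕ} {T : Fin N → Set S2} (h : IsCongruentTiling ε T) (i : Fin N)
    (hp : OnGreatCircles (T i)) :
    ∃ C : Finset S2, (C : Set S2) = corners (T i) ∧ ∀ J ⊆ C,
      N * ∏ x ∈ C \ J, (interiorAngle (T i) x / (2 * Real.pi)) ≤
        4 * ((C.card : ℝ) * (N * ε ^ 2)) ^ J.card :=
  h.corner_product i hp

end Pool.Agent.Results.MP_e5885b_co.CornerProduct
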